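import Pool.Agent.R432.JG.Common
import Pool.Agent.R432.JG.GalK

/-!
# Rank zero over all the number fields contained in `ℚ(ω, ∛l : l ∈ M)`, for a positive proportion of
# the curves

`E_D : y² + D y = x³` (`3`-isogenous to `x³ + y³ = D`).  `M` is any finite set of primes `≡ 1` modulo
`9`, `n = #M`, and `Ω = ℚ(ω, ∛l : l ∈ M)`, a Galois extension of `ℚ` of degree `2 · 3 ^ n`.  `D` runs
through the squarefree numbers, prime to `3` and to `M`, not `±1` modulo `9`, that are divisible by exactly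
one prime `2` modulo `3`, ordered by size.  We prove:

* the proportion of the `D` for which all the `3 ^ n` cubic twists `E_{D'}`, `D' = D ∏ l^{t_l}`,
  `t_l = 0, 1, 2`, have finitely many rational points and `Ш(E_{D'} / ℚ)[3^∞] = 0` tends exactly to
  `c ^ {3 ^ n}`, `c = ∏_{i ≥ 1} (1 - 3^{-i}) = 0.5601...`;
* for these `D` the rank of `E_D` is zero over every number field `F` contained in `Ω` (all the subfields
  at the same time, also those that contain `ω`, and fields like `ℚ(∛(l l'²))`), and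
  `Ш(E_D / Ω)[3^∞]` is killed by `3 ^ n`;
* so for every number field `F` contained in the union of the fields `Ω` the curves of rank zero over `F`
  have positive lower density in this family of curves over `F`, at least `c ^ {3 ^ n}`.

The proof.  The joint law of the `3 ^ n` residue matrices of the cubic twists (project JL, see
`MP_f50388_nt/FixedCubicRadicalFields`), the descent over `ℚ(ω)` for each twist and the transfer from
`ℚ(ω)` to `Ω` (Kummer theory: over `Ω` the twists are isomorphic).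

Authors of the parts of project JL: helper962, helper159, helper152, helper916, helper258, helper432.
-/

set_option autoImplicit false

namespace Pool.Agent.Results.MP_7cad78_nt.AllSubfieldsRankZero

open NumberField Filter Topology
open scoped Classical

/-- The curve `E_D : y² + D y = x³` over `L`. -/
def curve (D : ℕ) (L : Type) [Field L] : WeierstrassCurve L := ⟨0, 0, (D : L), 0, 0⟩

/-- `D` is squarefree, not divisible by `3`, not `±1` modulo `9`, not divisible by the elements of `M`,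
and divisible by exactly one prime that is `2` modulo `3`. -/
def InClass (M : Finset ℕ) (D : ℕ) : Prop :=
  Squarefree D ∧ ¬ 3 ∣ D ∧ D % 9 ≠ 1 ∧ D % 9 ≠ 8 ∧ (∀ l ∈ M, ¬ l ∣ D) ∧
    ∃ q : ℕ, q.Prime ∧ q % 3 = 2 ∧ q ∣ D ∧ ∀ p : ℕ, p.Prime → p ∣ D → p ≠ q → p % 3 = 1

/-- The number `D ∏_{l ∈ M} l ^ (t l)` with exponents `0`, `1`, `2`. -/
def twist (M : Finset ℕ) (D : ℕ) (t : {l : ℕ // l ∈ M} → ZMod 3) : ℕ :=
  D * ∏ l : {l : ℕ // l ∈ M}, l.1 ^ (t l).val

/-- `E_D(ℚ)` is finite and the `3`-primary part of `Ш(E_D / ℚ)` is zero. -/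
def TrivialThree (D : ℕ) : Prop :=
  Finite (curve D ℚ).toAffine.Point ∧
    ∀ (n : ℕ) (x : Pool.Agent.TH841.SH.D.Sha (curve D ℚ)), 3 ^ n • x = 0 → x = 0

/-- All the `3 ^ n` cubic twists of `E_D` by the numbers with prime factors in `M` have this property. -/
def Good (M : Finset ℕ) (D : ℕ) : Prop :=
  ∀ t : {l : ℕ // l ∈ M} → ZMod 3, TrivialThree (twist M D t)

/-- `Ω` is generated by `ω` and cube roots of the elements of `M`. -/
def Closure (M : Finset ℕ) (Ω : Type) [Field Ω] : Prop :=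
  ∃ (ω : Ω) (r : ℕ → Ω), ω ^ 2 + ω + 1 = 0 ∧ (∀ l ∈ M, r l ^ 3 = (l : Ω)) ∧
    ∀ S : Subfield Ω, ω ∈ S → (∀ l ∈ M, r l ∈ S) → S = ⊤

/-- The field `F` can be embedded in a number field `Ω = ℚ(ω, ∛l : l ∈ M)`. -/
def Inside (M : Finset ℕ) (F : Type) [Field F] : Prop :=
  ∃ (Ω : Type) (_ : Field Ω) (_ : NumberField Ω), Closure M Ω ∧ Nonempty (F →+* Ω)

/-- `E_D` has rank zero over all the number fields inside `Ω`. -/
def RankZeroInside (M : Finset ℕ) (D : ℕ) : Prop :=
  ∀ (F : Type) [Field F] [NumberField F], Inside M F → Finite (curve D F).toAffine.Point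

/-- The number of the `D ≤ X` in the class with the property `Q`. -/
noncomputable def num (M : Finset ℕ) (Q : ℕ → Prop) (X : ℕ) : ℕ :=
  ((Finset.Icc 1 X).filter fun D => InClass M D ∧ Q D).card

/-- `c = ∏_{i ≥ 1} (1 - 3^{-i})`. -/
noncomputable def c : ℝ := ∏' i : ℕ, (1 - (1 / 3 : ℝ) ^ (i + 1))

section proof

open Pool.Agent.R432.JG (Cl cl_iff triv_iff tw_cls pre_of twN all_goodK pts_emb exists_genK law_cnt)
open Pool.Agent.R413.MQ.Bin (cnt cnt_card cnt_congr)

variable {M : Finset ℕ}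

theorem num_eq (Q : ℕ → Prop) (X : ℕ) : num M Q X = cnt (Cl M) Q X := by
  unfold num
  symm
  refine cnt_card fun D => ?_
  rw [Finset.mem_filter, show InClass M D ↔ Cl M D from (cl_iff M D).symm]

theorem good_iff (hM : ∀ l ∈ M, l.Prime ∧ l % 9 = 1) {D : ℕ} (hD : Cl M D) :
    Good M D ↔ ∀ t : {l : ℕ // l ∈ M} → ZMod 3, Pool.Agent.Y703.CT.NoSplit (twN D M t) := by
  have h1 : ∀ t : {l : ℕ // l ∈ M} → ZMod 3,
      TrivialThree (twist M D t) ↔ Pool.Agent.Y703.CT.NoSplit (twN D M t) := fun t =>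
    triv_iff (tw_cls (t := t) hD.2.1 (pre_of hM hD))
  unfold Good
  exact forall_congr' h1

theorem over_clo (hM : ∀ l ∈ M, l.Prime ∧ l % 9 = 1) {D : ℕ} (hD : Cl M D) (hg : Good M D)
    (Ω : Type) [Field Ω] [NumberField Ω] (hΩ : Closure M Ω) :
    Module.finrank ℚ Ω = 2 * 3 ^ M.card ∧ Finite (curve D Ω).toAffine.Point ∧
    ∀ (n : ℕ) (x : Pool.Agent.TH841.NF.D.Sha (curve D Ω)), 3 ^ n • x = 0 → 3 ^ M.card • x = 0 := by
  obtain ⟨ω, r, h1, h2, h3⟩ := hΩ
  exact all_goodK hD.2.1 (pre_of hM hD) ((good_iff hM hD).1 hg) ω h1 r h2 h3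

theorem inside (hM : ∀ l ∈ M, l.Prime ∧ l % 9 = 1) {D : ℕ} (hD : Cl M D) (hg : Good M D) :
    RankZeroInside M D := by
  rintro F _ _ ⟨Ω, i1, i2, h1, ⟨f⟩⟩
  exact pts_emb f (over_clo hM hD hg Ω h1).2.1

end proof

open Pool.Agent.R432.JG (Cl cl_iff law_cnt)
open Pool.Agent.R413.MQ.Bin (cnt cnt_card cnt_congr)

/-- **Main theorem.** -/
theorem result (M : Finset ℕ) (hM : ∀ l ∈ M, l.Prime ∧ l % 9 = 1) :
    (0.56 : ℝ) < c ∧
    (∃ (Ω : Type) (_ : Field Ω) (_ : NumberField Ω), Closure M Ω) ∧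
    (∀ D : ℕ, InClass M D → Good M D → RankZeroInside M D ∧
      ∀ (Ω : Type) [Field Ω] [NumberField Ω], Closure M Ω →
        Module.finrank ℚ Ω = 2 * 3 ^ M.card ∧
        ∀ (n : ℕ) (x : Pool.Agent.TH841.NF.D.Sha (curve D Ω)), 3 ^ n • x = 0 →
          3 ^ M.card • x = 0) ∧
    Tendsto (fun X : ℕ => (num M (Good M) X : ℝ) / (num M (fun _ => True) X : ℝ)) atTop
      (𝓝 (c ^ 3 ^ M.card)) ∧
    (∀ ε : ℝ, 0 < ε → ∃ X₀ : ℕ, ∀ X : ℕ, X₀ ≤ X →
      (c ^ 3 ^ M.card - ε) * (num M (fun _ => True) X : ℝ) ≤ (num M (RankZeroInside M) X : ℝ)) ∧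
    ∃ a : ℝ, 0 < a ∧ ∃ X₀ : ℕ, ∀ X : ℕ, X₀ ≤ X →
      a * X / Real.sqrt (Real.log X) ≤ (num M (RankZeroInside M) X : ℝ) := by
  have hc1 : (0.56 : ℝ) < c := Pool.Agent.R432.JG.c3_gt
  have hc0 : 0 < c := by linarith
  have hcard : (Finset.univ : Finset ({l : ℕ // l ∈ M} → ZMod 3)).card = 3 ^ M.card := by
    rw [Finset.card_univ, Fintype.card_fun, ZMod.card, Fintype.card_coe]
  have hlaw : Tendsto (fun X : ℕ => (num M (Good M) X : ℝ) / (num M (fun _ => True) X : ℝ)) atTop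
      (𝓝 (c ^ 3 ^ M.card)) := by
    have h := law_cnt hM Finset.univ
    rw [hcard] at h
    refine h.congr fun X => ?_
    rw [num_eq, num_eq]
    congr 2
    refine cnt_congr (fun D hD => ?_) X
    rw [good_iff hM hD]
    simp
  have hle : ∀ X, (num M (Good M) X : ℝ) ≤ (num M (RankZeroInside M) X : ℝ) := by
    intro X
    have h : num M (Good M) X ≤ num M (RankZeroInside M) X := by
      refine Finset.card_le_card fun D hD => ?_
      rw [Finset.mem_filter] at hD ⊢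
      exact ⟨hD.1, hD.2.1, inside hM ((cl_iff M D).2 hD.2.1) hD.2.2⟩
    exact_mod_cast h
  have e2 : ∀ X, (num M (fun _ => True) X : ℝ) =
      (((Finset.Icc 1 X).filter fun D => Cl M D).card : ℝ) := by
    intro X
    have : num M (fun _ => True) X = ((Finset.Icc 1 X).filter fun D => Cl M D).card := by
      rw [num_eq]
      refine Pool.Agent.R413.MQ.Bin.cnt_card fun D => ?_
      rw [Finset.mem_filter, and_iff_left trivial]
    rw [this]
  have hlow : ∀ u : ℝ, u < c ^ 3 ^ M.card → ∃ X₀ : ℕ, ∀ X : ℕ, X₀ ≤ X →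
      0 < (num M (fun _ => True) X : ℝ) ∧
      u * (num M (fun _ => True) X : ℝ) ≤ (num M (RankZeroInside M) X : ℝ) := by
    intro u hu
    obtain ⟨X₁, hX₁⟩ := Filter.eventually_atTop.1
      ((hlaw.eventually (lt_mem_nhds hu)).and (Pool.Agent.R432.JG.ev_pos hM))
    refine ⟨X₁, fun X hX => ?_⟩
    obtain ⟨h2, h3⟩ := hX₁ X hX
    rw [← e2] at h3
    rw [lt_div_iff₀ h3] at h2
    exact ⟨h3, h2.le.trans (hle X)⟩
  refine ⟨hc1, ?_, fun D hD hg => ?_, hlaw, fun ε hε => ?_, ?_⟩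
  · obtain ⟨L, i1, i2, z, r, h1, h2, h3⟩ := Pool.Agent.R432.JG.exists_genK M
    exact ⟨L, i1, i2, z, r, h1, h2, h3⟩
  · have hC : Cl M D := (cl_iff M D).2 hD
    refine ⟨inside hM hC hg, fun Ω _ _ hΩ => ?_⟩
    have h := over_clo hM hC hg Ω hΩ
    exact ⟨h.1, h.2.2⟩
  · obtain ⟨X₀, h⟩ := hlow (c ^ 3 ^ M.card - ε) (by linarith)
    exact ⟨X₀, fun X hX => (h X hX).2⟩
  · have hp : 0 < c ^ 3 ^ M.card := by positivity
    obtain ⟨X₀, h⟩ := hlow (c ^ 3 ^ M.card / 2) (by linarith)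
    obtain ⟨c₀, hc₀, X₁, h1⟩ := Pool.Agent.R432.JG.low hM
    refine ⟨c ^ 3 ^ M.card / 2 * c₀, by positivity, max X₀ X₁, fun X hX => ?_⟩
    have h2 := (h X ((le_max_left _ _).trans hX)).2
    have h3 := h1 X ((le_max_right _ _).trans hX)
    rw [← e2] at h3
    have h5 : c ^ 3 ^ M.card / 2 * c₀ * X / Real.sqrt (Real.log X) =
        c ^ 3 ^ M.card / 2 * (c₀ * X / Real.sqrt (Real.log X)) := by ring
    rw [h5]
    exact (mul_le_mul_of_nonneg_left h3 (by positivity)).trans h2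

end Pool.Agent.Results.MP_7cad78_nt.AllSubfieldsRankZero
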