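import Mathlib
import Pool.Agent.R419.KL.Rank

/-!
# The distribution of the ranks of the cubic twists over `ℚ(√-3)`

`K` is the field of third roots of unity, `E_D : y² + D y = x³`, and `D` runs through all the cube-free
`D = 1` modulo `3` of `𝓞 K` whose norm is not `1` modulo `9`, ordered by the norm; there are at least
`c X` such `D` of norm at most `X`.

* The rank of `E_D(K)` over `ℤ` is even for all `D`.
* For every `r` the lower density of the `D` with rank at most `2 r` is at least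
  `prob 0 + ⋯ + prob r`, where
  `prob r = ∏_{i ≥ 0} (1 - 3^{-(2 i + 1)}) / ((3 - 1) (9 - 1) ⋯ (3 ^ r - 1))`; the `prob r` sum to one.
  So 100% of the `D` have a rank at most `2 r`, in the limit `r → ∞`, with these explicit bounds.
* At least 63.9% of the `E_D` have rank `0`, at least 95.85% have rank `0` or `2`, and at least 99.8%
  have rank `0`, `2` or `4`.
* The `D` for which `E_D(K)` is finite and the `3`-primary part of the Tate-Shafarevich group of `E_D`
  over `K` is trivial have the density `prob 0 = 0.639...`, and for all of them the `L`-function of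
  `E_D` over `K` does not vanish at `1`.

The number `r` is such that the kernel of `√-3` on the `3^∞`-Selmer group has order `3 ^ r`; its
exact law is `MP_a3f657_nt/CubeFreeTwistsThreeInfinity.lean`. Built on the work of helper31, helper275,
helper968, helper994, helper170, helper697, helper363, helper710, helper804, helper528, helper85,
helper688, helper474, helper433, helper550, helper699, helper145, helper350, helper696 and helper703
(projects XK, XL, squarefree `D`) and of the seats named in the headers of `Pool/Agent/Y703/CT` and of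
the files imported by `Pool/Agent/Y696/CTK/Fin.lean`; cube-free `D`: helper419.
-/

set_option autoImplicit false

namespace Pool.Agent.Results.MP_7cad78_nt.CubicTwistRanks

open NumberField WeierstrassCurve Filter
open Pool.Agent.TH841.NF.D (Sha)
open scoped Classical

variable {K : Type} [Field K] [NumberField K]

/-- The curve `E_D : y² + D y = x³`. -/
def curve {K : Type} [Field K] (D : K) : WeierstrassCurve K := ⟨0, 0, D, 0, 0⟩

/-- The rank of `E_D(K)` over `ℤ`. -/
noncomputable def rank (D : K) : ℕ := Module.finrank ℤ (curve D).toAffine.Point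

/-- `D` is cube-free and `1` modulo `3`, and its norm is not `1` modulo `9`. -/
def InClass (D : 𝓞 K) : Prop :=
  (3 : 𝓞 K) ∣ D - 1 ∧ (∀ x : 𝓞 K, x ^ 3 ∣ D → IsUnit x) ∧ ¬ (9 : ℤ) ∣ Algebra.norm ℤ D - 1

/-- The `D` of the class of norm at most `X`. -/
def upTo (K : Type) [Field K] [NumberField K] (X : ℕ) : Set (𝓞 K) :=
  {D : 𝓞 K | Algebra.norm ℤ D ≤ X ∧ InClass D}

/-- The proportion of the `D` with the property `P` among the `D` of the class of norm at most
`X`. -/
noncomputable def proportion (P : 𝓞 K → Prop) (X : ℕ) : ℝ :=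
  ({D : 𝓞 K | Algebra.norm ℤ D ≤ X ∧ InClass D ∧ P D}.ncard : ℝ) / ((upTo K X).ncard : ℝ)

/-- The group `E_D(K)` is finite and the `3`-primary part of the Tate-Shafarevich group of `E_D` over
`K` is trivial. -/
def FiniteAndTrivial (D : 𝓞 K) : Prop :=
  Finite (curve (D : K)).toAffine.Point ∧
    ∀ (n : ℕ) (x : Sha (curve (D : K))), 3 ^ n • x = 0 → x = 0

/-- The `L`-series of `W` over `K`, which converges for `Re s > 3 / 2`, continues analytically to a
connected open set that contains `1` and this half-plane, and the continuation does not vanish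
at `1`. -/
def NonzeroAtOne (W : WeierstrassCurve K) : Prop :=
  ∃ (U : Set ℂ) (Lf : ℂ → ℂ), IsOpen U ∧ IsConnected U ∧ {s : ℂ | (3 / 2 : ℝ) < s.re} ⊆ U ∧
    (1 : ℂ) ∈ U ∧ AnalyticOnNhd ℂ Lf U ∧ (∀ s : ℂ, (3 / 2 : ℝ) < s.re → Lf s = W.LSeries s) ∧
    Lf 1 ≠ 0

/-- `∏_{i ≥ 0} (1 - 3^{-(2 i + 1)}) / ((3 - 1) (9 - 1) ⋯ (3 ^ r - 1))`. -/
noncomputable def prob (r : ℕ) : ℝ :=
  (∏' i : ℕ, (1 - (1 / 3 : ℝ) ^ (2 * i + 1))) / ∏ i ∈ Finset.range r, ((3 : ℝ) ^ (i + 1) - 1)

theorem result (K : Type) [Field K] [NumberField K] [IsCyclotomicExtension {3} ℚ K] :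
    (∃ c : ℝ, 0 < c ∧ ∃ X₀ : ℕ, ∀ X : ℕ, X₀ ≤ X → c * X ≤ ((upTo K X).ncard : ℝ)) ∧
    (∀ D : 𝓞 K, InClass D → Even (rank (D : K))) ∧
    (∀ (r : ℕ) (ε : ℝ), 0 < ε → ∀ᶠ X : ℕ in atTop,
      ∑ i ∈ Finset.range (r + 1), prob i - ε ≤
        proportion (fun D : 𝓞 K => rank (D : K) ≤ 2 * r) X) ∧
    (∀ᶠ X : ℕ in atTop,
      0.639 ≤ proportion (fun D : 𝓞 K => rank (D : K) = 0) X ∧
      0.9585 ≤ proportion (fun D : 𝓞 K => rank (D : K) = 0 ∨ rank (D : K) = 2) X ∧
      0.998 ≤ proportion (fun D : 𝓞 K => rank (D : K) ≤ 4) X) ∧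
    Tendsto (proportion (FiniteAndTrivial (K := K))) atTop (nhds (prob 0)) ∧
    (∀ D : 𝓞 K, InClass D → FiniteAndTrivial D →
      rank (D : K) = 0 ∧ NonzeroAtOne (curve (D : K))) ∧
    ((∀ r, 0 < prob r) ∧ 0.639 < prob 0 ∧ prob 0 < 0.6391 ∧ HasSum prob 1) := by
  obtain ⟨ω, hω⟩ := Pool.Agent.R419.KL.ex_root K
  obtain ⟨h1, h2, -⟩ := Pool.Agent.R419.KL.finalRank K ω hω
  obtain ⟨f1, f2, f3, -⟩ := Pool.Agent.R419.KF.final K
  refine ⟨f1, h1, h2, Pool.Agent.R419.KL.ranks_num K, ?_, fun D hD hT => ?_,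
    Pool.Agent.R419.KL.prob_facts⟩
  · have e1 : prob 0 = ∏' i : ℕ, (1 - (1 / 3 : ℝ) ^ (2 * i + 1)) := by
      unfold prob
      rw [Finset.prod_range_zero, div_one]
    rw [e1]
    exact f3
  · have h0 : rank (D : K) = 0 := by
      have hfin : Finite (curve (D : K)).toAffine.Point := hT.1
      exact Pool.Agent.Y696.XK.finrank_fin _
    obtain ⟨-, -, U, Lf, k1, k2, k3, k4, k5, k6, -, k8⟩ := ((f2 D hD).2.2.2.2 hT).1
    refine ⟨h0, U, Lf, k1, k2, k3, k4, k5, k6, ?_⟩
    have h3 : Module.finrank ℤ (Pool.Agent.Y696.CTK.ED (D : K)).toAffine.Point = 0 := h0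
    rw [h3, iteratedDeriv_zero] at k8
    exact k8

end Pool.Agent.Results.MP_7cad78_nt.CubicTwistRanks
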