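import Pool.Agent.R413.CK.Mf
import Pool.Agent.R413.MQ.Bsd
import Pool.Agent.Results.MP_03e5d0_nt.FullClassX49

/-!
# The ranks of the twists of `X_0(49)` over multiquadratic fields of every degree

`D ≥ 1` runs over all squarefree numbers with all prime factors `≡ 1 mod 4`, and `E_D` is the quadratic
twist by `D` of `X_0(49) : y² + x y = x³ - x² - 2 x - 1`. Let `F = ℚ(√d_1, ..., √d_n)` be a multiquadratic
field of degree `2 ^ n`, where the `d_i` are numbers of the class. For the group `E_D(F)`: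
* its rank is at most `2 corankF D`, where `corankF D` is the sum over the `2 ^ n` subsets of
  `{1, ..., n}` of the coranks of matrices over `𝔽₂`, given by Legendre symbols and quartic residue
  symbols;
* as `D` runs over the class, ordered by size, `corankF D` has in the limit exactly the law of the sum
  of `2 ^ n` independent random variables with the law `law r = c / ∏_{i < r} (2^{i+1} - 1)`,
  `c = 0.4194...`; so the rank of `E_D(F)` is at most `2 r` for at least the proportion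
  `∑_{i ≤ r} lawN (2 ^ n) i`, and zero for at least the proportion `c ^ (2 ^ n)`;
* the upper average of the rank of `E_D(F)` is at most `2 [F : ℚ] ∑_{i ≥ 1} 1 / (2 ^ i + 1)`, less than
  `1.5292 [F : ℚ]`, and all moments are bounded;
* for every `a > ∑_{i ≥ 1} 1 / (2 ^ i + 1) = 0.764...` there is `q < 1` such that for all these fields `F`
  the rank of `E_D(F)` is at least `2 a [F : ℚ]` for at most the proportion `q ^ [F : ℚ]` of the `D`, in the
  limit.
-/

set_option autoImplicit false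

open Filter Topology

namespace Pool.Agent.Results.MP_7cad78_nt.MultiquadraticRanksX49

open Pool.Agent.Results.MP_4a9ea6_nt.TwoPartTwistsX49 (E split mat)
open Pool.Agent.Results.MP_92892c_nt.FullClassTwoPartX49 (Family num)
open Pool.Agent.Results.MP_03e5d0_nt.FullClassX49 (c)

/-- the `d_i` are in the class and independent modulo squares -/
def Tuple {n : ℕ} (d : Fin n → ℕ) : Prop :=
  (∀ i, Family (d i)) ∧ ∀ T : Finset (Fin n), T.Nonempty → ¬ IsSquare (∏ i ∈ T, d i)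

/-- `F = ℚ(√d_1, ..., √d_n)` -/
def IsField {n : ℕ} (d : Fin n → ℕ) (F : Type) [Field F] [NumberField F] : Prop :=
  ∃ x : Fin n → F, (∀ i, x i ^ 2 = (d i : F)) ∧ IntermediateField.adjoin ℚ (Set.range x) = ⊤

open Classical in
/-- the rank of the group `E_D(F)` -/
noncomputable def rank (F : Type) [Field F] [NumberField F] (D : ℕ) : ℕ :=
  Module.finrank ℤ ((E D).baseChange F).toAffine.Point

/-- the squarefree part of `m`: the product of the primes with odd exponent in `m` -/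
noncomputable def sqf (m : ℕ) : ℕ :=
  ∏ p ∈ m.primeFactors.filter (fun p => Odd (m.factorization p)), p

/-- the corank of the matrix `mat D` over the field with two elements -/
noncomputable def corank (D : ℕ) : ℕ := (split D).card - (mat D).rank

/-- the sum of the coranks for the squarefree parts of the numbers `D ∏_{i ∈ T} d_i` -/
noncomputable def corankF {n : ℕ} (d : Fin n → ℕ) (D : ℕ) : ℕ :=
  ∑ T : Finset (Fin n), corank (sqf (D * ∏ i ∈ T, d i))

/-- the law of the coranks -/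
noncomputable def law (r : ℕ) : ℝ := c / ∏ i ∈ Finset.range r, ((2 : ℝ) ^ (i + 1) - 1)

/-- the law of the sum of `N` independent coranks: the coefficient of `z ^ r` in `(∑ law r z ^ r) ^ N` -/
noncomputable def lawN (N r : ℕ) : ℝ := PowerSeries.coeff r ((PowerSeries.mk law) ^ N)

/-- the moments of the law -/
noncomputable def moment (m : ℕ) : ℝ := ∑' r : ℕ, (r : ℝ) ^ m * law r

open Classical in
/-- the numbers of the class up to `X` -/
noncomputable def upTo (X : ℕ) : Finset ℕ := (Finset.Icc 1 X).filter Family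

/-- the average of `f` over the numbers of the class up to `X` -/
noncomputable def avg (f : ℕ → ℝ) (X : ℕ) : ℝ := (∑ D ∈ upTo X, f D) / (upTo X).card

section proof

open Pool.Agent.R413.SQ
open Pool.Agent.R413.CK (mr mr_pr mr_hasSum mu mu_bounds rank_corank clsX num_clsX num_cnt
  mo_summ mean_eq low_num rank_mq ut_sum ut_card ut_mem law_sum sum_moment UT num_mono mem_clsX)
open Pool.Agent.Results.MP_4a9ea6_nt.TwoPartTwistsX49 (Adm)
open Pool.Agent.Results.MP_03e5d0_nt.FullClassX49 (num_num)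

theorem hc : 0.4194 < c ∧ c < 0.4195 :=
  ⟨Pool.Agent.Y948.CQ.t_C2.2.2.2.1, Pool.Agent.Y948.CQ.t_C2.2.2.2.2⟩

theorem law_mr : law = mr := by
  funext r
  rw [mr_pr]
  rfl

theorem lawN_ck (N r : ℕ) : lawN N r = Pool.Agent.R413.CK.lawN N r := by
  unfold lawN Pool.Agent.R413.CK.lawN
  rw [law_mr]

theorem lawN_zero (N : ℕ) : lawN N 0 = c ^ N := by
  unfold lawN
  rw [PowerSeries.coeff_zero_eq_constantCoeff_apply, map_pow,
    ← PowerSeries.coeff_zero_eq_constantCoeff_apply, PowerSeries.coeff_mk]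
  simp [law]

theorem upTo_cls (X : ℕ) : upTo X = clsX X := by
  unfold upTo clsX
  congr 1

theorem card_num (X : ℕ) : ((upTo X).card : ℝ) = (Joint.num (fun _ => True) X : ℝ) := by
  rw [num_clsX, upTo_cls]
  congr 2
  ext D
  simp

theorem num_joint (Q : ℕ → Prop) (X : ℕ) : num Q X = Joint.num Q X :=
  num_num (fun _ _ => Iff.rfl) X

theorem law_facts : HasSum law 1 ∧ (∀ m : ℕ, Summable fun r : ℕ => (r : ℝ) ^ m * law r) ∧
    moment 1 = ∑' i : ℕ, 1 / ((2 : ℝ) ^ (i + 1) + 1) ∧ 0.764 < moment 1 ∧ moment 1 < 0.7646 := by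
  have h1 : moment 1 = mu := by
    unfold moment
    rw [law_mr, ← mean_eq]
    simp only [pow_one]
  refine ⟨?_, ?_, h1, ?_, ?_⟩
  · rw [law_mr]
    exact mr_hasSum
  · rw [law_mr]
    exact mo_summ
  · rw [h1]
    exact mu_bounds.1
  · rw [h1]
    exact mu_bounds.2

variable {n : ℕ} {d : Fin n → ℕ} {F : Type} [Field F] [NumberField F]

theorem degree (hd : Tuple d) (hF : IsField d F) : Module.finrank ℚ F = 2 ^ n := by
  obtain ⟨x, hx, htop⟩ := hF
  refine Pool.Agent.R413.MQ.finrank_eq (d := fun i => (d i : ℤ)) (fun T hT h => ?_)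
    (fun i => by rw [hx i, Int.cast_natCast]) htop
  refine hd.2 T hT ?_
  rw [← Nat.cast_prod] at h
  exact Int.isSquare_natCast_iff.1 h

open Classical in
theorem bound (hd : Tuple d) (hF : IsField d F) {D : ℕ} (hD : Family D) :
    Module.rank ℤ ((E D).baseChange F).toAffine.Point ≤ ((2 * corankF d D : ℕ) : Cardinal) := by
  obtain ⟨x, hx, htop⟩ := hF
  exact rank_mq hx hd.1 htop hD

theorem rank_le (hd : Tuple d) (hF : IsField d F) {D : ℕ} (hD : Family D) :
    rank F D ≤ 2 * corankF d D := by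
  classical
  exact Module.finrank_le_of_rank_le (bound hd hF hD)

theorem corankF_eq (hd : Tuple d) {D : ℕ} (hD : Family D) :
    corankF d D = ∑ M ∈ Finset.univ.image (UT d), Pool.Agent.R413.CK.corank (Joint.tw M D) :=
  ut_sum hd.1 hd.2 hD

theorem lim (hd : Tuple d) (r : ℕ) :
    Tendsto (fun X : ℕ => (num (fun D => corankF d D = r) X : ℝ) / (num (fun _ => True) X : ℝ))
      atTop (𝓝 (lawN (2 ^ n) r)) := by
  have h := law_sum (ut_mem hd.1) r
  rw [ut_card hd.1 hd.2, ← lawN_ck] at h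
  refine h.congr fun X => ?_
  rw [num_num (Q := fun D => corankF d D = r) (R := fun D => ∑ M ∈ Finset.univ.image (UT d),
    Pool.Agent.R413.CK.corank (Joint.tw M D) = r) (fun D hD => by rw [corankF_eq hd hD]) X,
    num_num (Q := fun _ => True) (R := fun _ => True) (fun _ _ => Iff.rfl) X]

theorem numpos : ∀ᶠ X : ℕ in atTop, (0 : ℝ) < (num (fun _ => True) X : ℝ) := by
  obtain ⟨c', hc', hlow⟩ := low_num
  filter_upwards [hlow, Pool.Agent.Y703.CX.ev_eL 1] with X h2 h3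
  have hXp : 1 ≤ X := Pool.Agent.Y703.CX.X_pos (by linarith)
  have hX0 : (0 : ℝ) < X := by exact_mod_cast hXp
  rw [num_joint]
  exact lt_of_lt_of_le (by positivity) h2

theorem low (hd : Tuple d) (hF : IsField d F) (r : ℕ) {δ : ℝ} (hδ : 0 < δ) :
    ∃ X₀ : ℕ, ∀ X : ℕ, X₀ ≤ X →
      (∑ i ∈ Finset.range (r + 1), lawN (2 ^ n) i - δ) * (num (fun _ => True) X : ℝ) ≤
        (num (fun D => rank F D ≤ 2 * r) X : ℝ) := by
  classical
  have h1 : Tendsto (fun X : ℕ => ∑ i ∈ Finset.range (r + 1),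
      (num (fun D => corankF d D = i) X : ℝ) / (num (fun _ => True) X : ℝ)) atTop
      (𝓝 (∑ i ∈ Finset.range (r + 1), lawN (2 ^ n) i)) := tendsto_finsetSum _ fun i _ => lim hd i
  obtain ⟨X₀, h2⟩ := eventually_atTop.1 ((h1.eventually (lt_mem_nhds
    (show ∑ i ∈ Finset.range (r + 1), lawN (2 ^ n) i - δ <
      ∑ i ∈ Finset.range (r + 1), lawN (2 ^ n) i by linarith))).and numpos)
  refine ⟨X₀, fun X hX => ?_⟩
  obtain ⟨h3, h4⟩ := h2 X hX
  rw [← Finset.sum_div, lt_div_iff₀ h4] at h3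
  refine h3.le.trans ?_
  rw [← Nat.cast_sum, Nat.cast_le]
  have h5 : ∀ i : ℕ, ∃ t : Finset ℕ, ∀ D, D ∈ t ↔ D ∈ Finset.Icc 1 X ∧ Adm D ∧ corankF d D = i :=
    fun i => ⟨(Finset.Icc 1 X).filter fun D => Adm D ∧ corankF d D = i,
      fun D => by rw [Finset.mem_filter]⟩
  choose t ht using h5
  obtain ⟨s, hs⟩ : ∃ s : Finset ℕ, ∀ D, D ∈ s ↔ D ∈ Finset.Icc 1 X ∧ Adm D ∧ rank F D ≤ 2 * r :=
    ⟨(Finset.Icc 1 X).filter fun D => Adm D ∧ rank F D ≤ 2 * r, fun D => by rw [Finset.mem_filter]⟩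
  have h6 : ∀ i ∈ Finset.range (r + 1), num (fun D => corankF d D = i) X = (t i).card :=
    fun i _ => by rw [num_joint, num_cnt, Pool.Agent.R413.MQ.Bin.cnt_card (ht i)]
  rw [Finset.sum_congr rfl h6, num_joint, num_cnt, Pool.Agent.R413.MQ.Bin.cnt_card hs,
    ← Finset.card_biUnion]
  · refine Finset.card_le_card fun D hD => ?_
    obtain ⟨i, hi, hD'⟩ := Finset.mem_biUnion.1 hD
    obtain ⟨g1, g2, g3⟩ := (ht i D).1 hD'
    have g4 := rank_le hd hF g2
    rw [Finset.mem_range] at hi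
    exact (hs D).2 ⟨g1, g2, by omega⟩
  · intro i _ j _ hij
    rw [Function.onFun, Finset.disjoint_left]
    intro D hD hD'
    exact hij (((ht i D).1 hD).2.2.symm.trans ((ht j D).1 hD').2.2)

theorem moments (hd : Tuple d) (hF : IsField d F) {m : ℕ} (hm : 1 ≤ m) {δ : ℝ} (hδ : 0 < δ) :
    ∃ X₀ : ℕ, ∀ X : ℕ, X₀ ≤ X →
      avg (fun D => (rank F D : ℝ) ^ m) X ≤ (2 * (2 : ℝ) ^ n) ^ m * moment m + δ := by
  obtain ⟨k, rfl⟩ : ∃ k, m = k + 1 := ⟨m - 1, by omega⟩
  obtain ⟨X₀, h2⟩ := eventually_atTop.1 ((sum_moment (ut_mem hd.1) k hδ).and numpos)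
  refine ⟨X₀, fun X hX => ?_⟩
  obtain ⟨h3, h4⟩ := h2 X hX
  rw [num_joint] at h4
  unfold avg moment
  rw [card_num, div_le_iff₀ h4, law_mr, upTo_cls]
  have e1 : (2 * ((Finset.univ.image (UT d)).card : ℝ)) = 2 * (2 : ℝ) ^ n := by
    rw [ut_card hd.1 hd.2]
    push_cast
    rfl
  rw [e1] at h3
  refine le_trans (Finset.sum_le_sum fun D hD => ?_) h3
  apply pow_le_pow_left₀ (Nat.cast_nonneg _)
  have h5 := rank_le hd hF (mem_clsX.1 hD).2
  rw [corankF_eq hd (mem_clsX.1 hD).2] at h5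
  exact_mod_cast h5

theorem average (hd : Tuple d) (hF : IsField d F) :
    ∃ X₀ : ℕ, ∀ X : ℕ, X₀ ≤ X → avg (fun D => (rank F D : ℝ)) X < 1.5292 * (2 : ℝ) ^ n := by
  have h0 := law_facts.2.2.2.2
  have hp : (0 : ℝ) < 2 ^ n := by positivity
  obtain ⟨X₀, h⟩ := moments hd hF le_rfl (δ := (1.5292 - 2 * moment 1) / 2 * 2 ^ n)
    (mul_pos (by linarith) hp)
  refine ⟨X₀, fun X hX => ?_⟩
  have h1 := h X hX
  simp only [pow_one] at h1
  nlinarith

theorem large {a : ℝ} (ha : moment 1 < a) : ∃ q : ℝ, 0 < q ∧ q < 1 ∧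
    ∀ (n : ℕ) (d : Fin n → ℕ), Tuple d → ∀ (F : Type) [Field F] [NumberField F], IsField d F →
      ∀ δ : ℝ, 0 < δ → ∃ X₀ : ℕ, ∀ X : ℕ, X₀ ≤ X →
        (num (fun D => 2 * a * (2 : ℝ) ^ n ≤ (rank F D : ℝ)) X : ℝ) ≤
          (q ^ (2 ^ n) + δ) * (num (fun _ => True) X : ℝ) := by
  rw [law_facts.2.2.1] at ha
  obtain ⟨q, hq0, hq1, h⟩ := Pool.Agent.R413.CK.ldp (a := a) ha
  refine ⟨q, hq0, hq1, fun n d hd F _ _ hF δ hδ => ?_⟩
  obtain ⟨X₀, h1⟩ := h _ (ut_mem hd.1) δ hδ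
  refine ⟨X₀, fun X hX => ?_⟩
  have h2 := h1 X hX
  rw [ut_card hd.1 hd.2] at h2
  rw [num_joint, num_joint]
  refine le_trans ?_ h2
  have h3 : Joint.num (fun D => 2 * a * (2 : ℝ) ^ n ≤ (rank F D : ℝ)) X ≤
      Joint.num (fun D => a * ((2 ^ n : ℕ) : ℝ) ≤ ((∑ M ∈ Finset.univ.image (UT d),
        Pool.Agent.R413.CK.corank (Joint.tw M D) : ℕ) : ℝ)) X := by
    refine num_mono (fun D hD h => ?_) X
    have h4 := rank_le hd hF hD
    rw [corankF_eq hd hD] at h4
    have h5 : (rank F D : ℝ) ≤ 2 * ((∑ M ∈ Finset.univ.image (UT d),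
        Pool.Agent.R413.CK.corank (Joint.tw M D) : ℕ) : ℝ) := by exact_mod_cast h4
    push_cast at h5 ⊢
    linarith
  exact_mod_cast h3

end proof

open Classical in
theorem result :
    (∀ (n : ℕ) (d : Fin n → ℕ), Tuple d → ∀ (F : Type) [Field F] [NumberField F], IsField d F →
      Module.finrank ℚ F = 2 ^ n ∧
      (∀ D : ℕ, Family D → Module.rank ℤ ((E D).baseChange F).toAffine.Point ≤
        ((2 * corankF d D : ℕ) : Cardinal) ∧ rank F D ≤ 2 * corankF d D) ∧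
      (∀ r : ℕ, Tendsto (fun X : ℕ => (num (fun D => corankF d D = r) X : ℝ) /
        (num (fun _ => True) X : ℝ)) atTop (𝓝 (lawN (2 ^ n) r))) ∧
      (∀ r : ℕ, ∀ δ : ℝ, 0 < δ → ∃ X₀ : ℕ, ∀ X : ℕ, X₀ ≤ X →
        (∑ i ∈ Finset.range (r + 1), lawN (2 ^ n) i - δ) * (num (fun _ => True) X : ℝ) ≤
          (num (fun D => rank F D ≤ 2 * r) X : ℝ)) ∧
      (∀ m : ℕ, 1 ≤ m → ∀ δ : ℝ, 0 < δ → ∃ X₀ : ℕ, ∀ X : ℕ, X₀ ≤ X →
        avg (fun D => (rank F D : ℝ) ^ m) X ≤ (2 * (2 : ℝ) ^ n) ^ m * moment m + δ) ∧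
      (∃ X₀ : ℕ, ∀ X : ℕ, X₀ ≤ X → avg (fun D => (rank F D : ℝ)) X < 1.5292 * (2 : ℝ) ^ n)) ∧
    (∀ a : ℝ, moment 1 < a → ∃ q : ℝ, 0 < q ∧ q < 1 ∧
      ∀ (n : ℕ) (d : Fin n → ℕ), Tuple d → ∀ (F : Type) [Field F] [NumberField F], IsField d F →
        ∀ δ : ℝ, 0 < δ → ∃ X₀ : ℕ, ∀ X : ℕ, X₀ ≤ X →
          (num (fun D => 2 * a * (2 : ℝ) ^ n ≤ (rank F D : ℝ)) X : ℝ) ≤
            (q ^ (2 ^ n) + δ) * (num (fun _ => True) X : ℝ)) ∧
    (HasSum law 1 ∧ (∀ m : ℕ, Summable fun r : ℕ => (r : ℝ) ^ m * law r) ∧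
      moment 1 = ∑' i : ℕ, 1 / ((2 : ℝ) ^ (i + 1) + 1) ∧ 0.764 < moment 1 ∧ moment 1 < 0.7646) ∧
    (∀ N : ℕ, lawN N 0 = c ^ N) ∧ 0.4194 < c ∧ c < 0.4195 :=
  ⟨fun _ _ hd _ _ _ hF => ⟨degree hd hF, fun _ hD => ⟨bound hd hF hD, rank_le hd hF hD⟩,
    lim hd, fun r _ hδ => low hd hF r hδ, fun _ hm _ hδ => moments hd hF hm hδ, average hd hF⟩,
    fun _ ha => large ha, law_facts, lawN_zero, hc⟩

end Pool.Agent.Results.MP_7cad78_nt.MultiquadraticRanksX49
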