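import Mathlib
import Pool.Agent.R338.CK.Fin2

/-!
# The ranks of the cubic twists over `ℚ(√-3)` by products of a fixed number of primes

`K` is the field of third roots of unity, `E_D : y² + D y = x³`, and `D = π₀ π₁ ⋯ π_m` is a product of
`m + 1` prime elements of `𝓞 K` that are `1` modulo `3`; the norm of `D` is not `1` modulo `9`. The
primes `πᵢ` run through arbitrary disjoint sets `Pᵢ` of primes of norm at most `Xᵢ`. `law m r` is the
proportion of the symmetric `m × m` matrices over the field with three elements that have corank `r`.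

Let `N` be the number of the tuples. Up to multiples of `144^(m+1) 3^(m(m+1)/2) C z^(-1/24) ∏ Xᵢ`
(`z` at most all the `Xᵢ`) at least `(law m 0 + ⋯ + law m r) N` of the tuples have rank at most
`2 r`, and the sum of the ranks over the tuples is at most `2 (∑ r law m r) N`. All ranks are even.

Built on the work of helper363 (bilinear sums), helper710 (equidistribution in a box), helper994,
helper968, helper31, helper804, helper85, helper275 (linear algebra over the field with three elements),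
helper703 (plan), helper696, helper891, helper954, helper737, helper811, helper350, helper455 and the
seats named in `Pool/Agent/Y703/CT` (the Selmer group of `√-3` and the rank over `K` for one `D`);
the parity of the rank is from `Pool/Agent/R419/KL/Rank.lean` (helper419).
-/

set_option autoImplicit false

namespace Pool.Agent.Results.MP_7cad78_nt.TuplesOfPrimes

open NumberField WeierstrassCurve TensorProduct
open scoped Classical

/-- The curve `E_D : y² + D y = x³`. -/
def curve {K : Type} [Field K] (D : K) : WeierstrassCurve K := ⟨0, 0, D, 0, 0⟩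

section
variable {K : Type} [Field K] [NumberField K]

/-- The rank of `E_D(K)` over `ℤ`. -/
noncomputable def rank (D : K) : ℕ := Module.finrank ℤ (curve D).toAffine.Point

/-- `P i` consists of prime elements `≡ 1` modulo `3` of norm at most `X i`, the sets are disjoint,
and `1 ≤ z ≤ X i` for all `i`. -/
structure Sets {m : ℕ} (P : Fin (m + 1) → Finset (𝓞 K)) (X : Fin (m + 1) → ℕ) (z : ℕ) : Prop where
  one_le : 1 ≤ z
  z_le : ∀ i, z ≤ X i
  primes : ∀ i, ∀ π ∈ P i, Prime π ∧ (3 : 𝓞 K) ∣ π - 1 ∧ Algebra.norm ℤ π ≤ X i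
  disjoint : ∀ i l, i ≠ l → Disjoint (P i) (P l)

/-- The tuples `p` with `p i ∈ P i` for which the norm of `D = ∏ p i` is not `1` modulo `9`. -/
def Tuples {m : ℕ} (P : Fin (m + 1) → Finset (𝓞 K)) : Set (Fin (m + 1) → 𝓞 K) :=
  {p | (∀ i, p i ∈ P i) ∧ ¬ (9 : ℤ) ∣ Algebra.norm ℤ (∏ i, p i) - 1}

/-- The number of the tuples such that the rank of `E_D(K)`, `D = ∏ p i`, is at most `k`. -/
noncomputable def numRankLe {m : ℕ} (P : Fin (m + 1) → Finset (𝓞 K)) (k : ℕ) : ℕ :=
  {p | p ∈ Tuples P ∧ rank ((∏ i, p i : 𝓞 K) : K) ≤ k}.ncard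

end

/-- The proportion of the symmetric `m × m` matrices over the field with three elements that have
corank `r`. -/
noncomputable def law (m r : ℕ) : ℝ :=
  (∏ i ∈ Finset.range ((m - r + 1) / 2), (1 - (1 / 3 : ℝ) ^ (2 * i + 1))) *
    ∏ j ∈ Finset.range r, (1 - (1 / 3 : ℝ) ^ (m - j)) / (3 ^ (j + 1) - 1)

/-- The error term. -/
noncomputable def err (C : ℝ) (m : ℕ) (X : Fin (m + 1) → ℕ) (z : ℕ) : ℝ :=
  144 ^ (m + 1) * 3 ^ (m * (m + 1) / 2) * C * (z : ℝ) ^ (-(1 / 24 : ℝ)) * ∏ i, (X i : ℝ)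

/-- The rank of a group with an endomorphism `w`, `w² + w + 1 = 0`, is even (helper419). -/
theorem even_rank {M : Type} [AddCommGroup M] (w : M →+ M) (h : ∀ x, w (w x) + w x + x = 0) :
    Even (Module.finrank ℤ M) := by
  have e1 : Module.finrank ℚ (ℚ ⊗[ℤ] M) = Module.finrank ℤ M :=
    (TensorProduct.isBaseChange ℤ M ℚ).finrank_eq
  rw [← e1]
  obtain ⟨J, hJ⟩ : ∃ J : M →ₗ[ℤ] M, ∀ x, J x = 2 • w x + x :=
    ⟨(2 • w + AddMonoidHom.id M).toIntLinearMap, fun x => rfl⟩
  have hJJ : J ∘ₗ J = (-3 : ℤ) • LinearMap.id := by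
    ext x
    rw [LinearMap.comp_apply, hJ, hJ, map_add, map_nsmul, LinearMap.smul_apply, LinearMap.id_apply]
    have h1 := h x
    have h2 : w (w x) = -(w x) - x := by
      rw [← sub_eq_zero, ← h1]
      abel
    rw [h2]
    module
  have hB : (J.baseChange ℚ) ∘ₗ (J.baseChange ℚ) = (-3 : ℚ) • LinearMap.id := by
    rw [← LinearMap.baseChange_comp, hJJ, LinearMap.baseChange_smul, LinearMap.baseChange_id]
    ext x
    simp [← Int.cast_smul_eq_zsmul ℚ]
  have hdet := congrArg LinearMap.det hB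
  rw [LinearMap.det_comp, LinearMap.det_smul, LinearMap.det_id, mul_one] at hdet
  by_contra hodd
  rw [Nat.not_even_iff_odd] at hodd
  have h3 : (-3 : ℚ) ^ Module.finrank ℚ (ℚ ⊗[ℤ] M) < 0 := Odd.pow_neg hodd (by norm_num)
  have h4 := mul_self_nonneg (LinearMap.det (J.baseChange ℚ))
  linarith

theorem even_pt {K : Type} [Field K] [CharZero K] {D z : K} (hD : D ≠ 0)
    (hz : z ^ 2 + z + 1 = 0) : Even (Module.finrank ℤ (curve D).toAffine.Point) := by
  have h := even_rank (Pool.Agent.Y703.XL.Inf.rh (D := D) (L := K) hz) fun x => by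
    rw [← Pool.Agent.Y703.XL.Inf.nrm hD hz x]
    abel
  exact h

theorem result : ∃ C : ℝ, 0 < C ∧ ∀ (K : Type) [Field K] [NumberField K]
    [IsCyclotomicExtension {3} ℚ K] (m : ℕ) (P : Fin (m + 1) → Finset (𝓞 K))
    (X : Fin (m + 1) → ℕ) (z : ℕ), Sets P X z →
    (∀ p ∈ Tuples P, Even (rank ((∏ i, p i : 𝓞 K) : K))) ∧
    (∀ r : ℕ,
      (∑ i ∈ Finset.range (r + 1), law m i) * ((Tuples P).ncard : ℝ) - (r + 1) * err C m X z ≤
        (numRankLe P (2 * r) : ℝ)) ∧
    ∑ᶠ p ∈ Tuples P, (rank ((∏ i, p i : 𝓞 K) : K) : ℝ) ≤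
      2 * (∑ i ∈ Finset.range (m + 1), (i : ℝ) * law m i) * ((Tuples P).ncard : ℝ) +
        2 * (m + 1) ^ 2 * err C m X z := by
  obtain ⟨C, hC1, hC⟩ := Pool.Agent.R338.CK.fin2
  refine ⟨C, by linarith, fun K _ _ _ m P X z hS => ?_⟩
  obtain ⟨ω, hω⟩ : ∃ ω : K, ω ^ 2 + ω + 1 = 0 := by
    obtain ⟨j, hj⟩ := Pool.Agent.R338.CK.Y455.jex K
    have hww : (Pool.Agent.Y692.QS.w : Pool.Agent.Y692.QS.Ei) ^ 2 + Pool.Agent.Y692.QS.w + 1 = 0 := by
      decide
    refine ⟨((j Pool.Agent.Y692.QS.w : 𝓞 K) : K), ?_⟩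
    have h2 := congrArg (fun z => ((j z : 𝓞 K) : K)) hww
    simp only [map_add, map_pow, map_one, map_zero] at h2
    exact h2
  obtain ⟨h1, h2, h3, h4⟩ := hC K ω hω m P X z ⟨hS.one_le, hS.z_le, hS.primes, hS.disjoint⟩
  have hT : Pool.Agent.R338.CK.cls P = Tuples P := rfl
  have hlaw : ∀ r, Pool.Agent.R338.CK.law m r = law m r := fun r => rfl
  have herr : Pool.Agent.R338.CK.err C m X z = err C m X z := rfl
  simp only [hT, hlaw, herr] at h1 h2 h3 h4
  have hfin : (Tuples P).Finite := Pool.Agent.R338.CK.cls_fin P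
  have hrk : ∀ p ∈ Tuples P, rank ((∏ i, p i : 𝓞 K) : K) ≤ 2 * Pool.Agent.R338.CK.W ω p :=
    fun p hp => (h1 p hp).2.2.1
  refine ⟨fun p hp => even_pt (h1 p hp).2.2.2.2.1 hω, fun r => ?_, ?_⟩
  · have h5 := (abs_le.1 (h3 (r + 1))).1
    have e : {p | p ∈ Tuples P ∧ Pool.Agent.R338.CK.W ω p < r + 1}.ncard ≤
        numRankLe P (2 * r) := by
      unfold numRankLe
      refine Set.ncard_le_ncard (fun p hp => ⟨hp.1, ?_⟩) (hfin.subset fun p hp => hp.1)
      have h6 : Pool.Agent.R338.CK.W ω p < r + 1 := hp.2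
      have h7 := hrk p hp.1
      omega
    have e' : (({p | p ∈ Tuples P ∧ Pool.Agent.R338.CK.W ω p < r + 1}.ncard : ℕ) : ℝ) ≤
        (numRankLe P (2 * r) : ℝ) := by exact_mod_cast e
    push_cast at h5
    linarith
  · have h5 := (abs_le.1 h4).2
    have h6 : ∑ᶠ p ∈ Tuples P, (rank ((∏ i, p i : 𝓞 K) : K) : ℝ) ≤
        2 * ∑ᶠ p ∈ Tuples P, (Pool.Agent.R338.CK.W ω p : ℝ) := by
      rw [finsum_mem_eq_finite_toFinset_sum _ hfin, finsum_mem_eq_finite_toFinset_sum _ hfin,
        Finset.mul_sum]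
      refine Finset.sum_le_sum fun p hp => ?_
      have := hrk p (hfin.mem_toFinset.1 hp)
      exact_mod_cast this
    linarith

end Pool.Agent.Results.MP_7cad78_nt.TuplesOfPrimes
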